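import Pool.Agent.X272.WZ.Main

/-!
# All constants of the Weitzenböck derivation of the free Lie algebra of rank two

`L` is the free Lie algebra over a field `K` of characteristic `0` on `x = of 0` and `y = of 1`,
and `δ` is the derivation with `δ x = 0`, `δ y = x`.
-/

noncomputable section

namespace Pool.Agent.Results.MP_d68c88_al.AllConstants

/-- the free Lie algebra on two generators -/
abbrev Lxy (K : Type*) [Field K] := FreeLieAlgebra K (Fin 2)

/-- the generator `x` -/
def gx (K : Type*) [Field K] : Lxy K := FreeLieAlgebra.of K 0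

/-- the generator `y` -/
def gy (K : Type*) [Field K] : Lxy K := FreeLieAlgebra.of K 1

variable {K : Type*} [Field K]

/-- the pseudodeterminant `U^{(m,k)}_{A,B} = [δ^m A, δ^k B] - [δ^k A, δ^m B]` -/
def pseudodet (δ : LieDerivation K (Lxy K) (Lxy K)) (m k : ℕ) (A B : Lxy K) : Lxy K :=
  ⁅δ^[m] A, δ^[k] B⁆ - ⁅δ^[k] A, δ^[m] B⁆

/-- generators of the second kind: constants `[f, g]` with `δ^{r-1} f = α g ≠ 0` for some
`r ≥ 1`, `α ∈ K` -/
def Second (δ : LieDerivation K (Lxy K) (Lxy K)) : Set (Lxy K) :=
  {c | δ c = 0 ∧ ∃ f g : Lxy K, c = ⁅f, g⁆ ∧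
    ∃ (r : ℕ) (α : K), 1 ≤ r ∧ δ^[r - 1] f = α • g ∧ α • g ≠ 0}

/-- generators of the third kind: the constants among the pseudodeterminants `U^{(1,0)}_{A,B}`
with `A, B` in a given set (for `U^{(1)}`: the set of Hall monomials) -/
def Third (δ : LieDerivation K (Lxy K) (Lxy K)) (Hall : Set (Lxy K)) : Set (Lxy K) :=
  {c | δ c = 0 ∧ ∃ A ∈ Hall, ∃ B ∈ Hall, c = pseudodet δ 1 0 A B}

/-- the Lie subalgebra generated by `x` and the generators of the second and third kind -/
def U1 (δ : LieDerivation K (Lxy K) (Lxy K)) (Hall : Set (Lxy K)) : LieSubalgebra K (Lxy K) :=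
  LieSubalgebra.lieSpan K (Lxy K) ({gx K} ∪ Second δ ∪ Third δ Hall)

open Pool.Agent.X272.WZ

/-- There is exactly one derivation `δ` with `δ x = 0`, `δ y = x`. For it `L^δ = U^{(1)}`
(whatever set is used for the Hall monomials), and every constant has the form
`α x + [f, x] - [δ f, y]` with `δ² f = 0` and is a linear combination of `x` and elements
`[h, δ h]` with `δ² h = 0`. -/
theorem result (K : Type*) [Field K] [CharZero K] :
    (∃! δ : LieDerivation K (Lxy K) (Lxy K), δ (gx K) = 0 ∧ δ (gy K) = gx K) ∧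
    ∀ δ : LieDerivation K (Lxy K) (Lxy K), δ (gx K) = 0 → δ (gy K) = gx K →
      (∀ (Hall : Set (Lxy K)) (c : Lxy K), δ c = 0 ↔ c ∈ U1 δ Hall) ∧
      (∀ c : Lxy K, δ c = 0 ↔ ∃ (α : K) (f : Lxy K), δ (δ f) = 0 ∧
        c = α • gx K + ⁅f, gx K⁆ - ⁅δ f, gy K⁆) ∧
      (∀ c : Lxy K, δ c = 0 ↔
        c ∈ Submodule.span K ({gx K} ∪ {c | ∃ h : Lxy K, δ (δ h) = 0 ∧ c = ⁅h, δ h⁆})) := by
  constructor
  · obtain ⟨δ, hδ⟩ := exists_derivation K (Fin 2) ![0, gx K]
    refine ⟨δ, ⟨hδ 0, hδ 1⟩, ?_⟩
    rintro δ' ⟨h0, h1⟩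
    apply LieDerivation.ext
    intro u
    apply der_ext
    intro i
    fin_cases i
    · exact h0.trans (hδ 0).symm
    · exact h1.trans (hδ 1).symm
  · intro δ hx hy
    have hmain := fun (c : Lxy K) (hc : δ c = 0) => constants δ hx hy c hc
    -- polarization
    have hpol : ∀ f : Lxy K, ⁅f, gx K⁆ - ⁅δ f, gy K⁆ =
        ⁅f + gy K, δ (f + gy K)⁆ - ⁅f, δ f⁆ - ⁅gy K, δ (gy K)⁆ := by
      intro f
      rw [map_add, hy, add_lie, lie_add, lie_add, ← lie_skew (gy K) (δ f)]
      abel
    have hyy : δ (δ (gy K)) = 0 := by rw [hy, hx]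
    have hconst : ∀ h : Lxy K, δ (δ h) = 0 → δ ⁅h, δ h⁆ = 0 := by
      intro h hh
      rw [LieDerivation.apply_lie_eq_add, hh, lie_self, lie_zero, add_zero]
    have hform : ∀ (α : K) (f : Lxy K), δ (δ f) = 0 →
        δ (α • gx K + ⁅f, gx K⁆ - ⁅δ f, gy K⁆) = 0 := by
      intro α f hf
      rw [add_sub_assoc, hpol, map_add, map_sub, map_sub, map_smul, hx, hconst _ hyy,
        hconst _ hf, hconst (f + gy K) (by rw [map_add, map_add, hf, hyy, add_zero])]
      simp
    refine ⟨?_, ?_, ?_⟩
    · intro Hall c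
      constructor
      · intro hc
        obtain ⟨α, f, hf, rfl⟩ := hmain c hc
        have hin : ∀ h : Lxy K, δ (δ h) = 0 → ⁅h, δ h⁆ ∈ U1 δ Hall := by
          intro h hh
          by_cases h0 : δ h = 0
          · rw [h0, lie_zero]
            exact zero_mem _
          · refine LieSubalgebra.subset_lieSpan (Or.inl (Or.inr ⟨hconst h hh, h, δ h, rfl, 2, 1,
              by norm_num, ?_, ?_⟩))
            · simp
            · simpa using h0
        have hxm : gx K ∈ U1 δ Hall :=
          LieSubalgebra.subset_lieSpan (Or.inl (Or.inl rfl))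
        have e : (α • FreeLieAlgebra.of K 0 + ⁅f, FreeLieAlgebra.of K (0 : Fin 2)⁆ -
            ⁅δ f, FreeLieAlgebra.of K (1 : Fin 2)⁆ : Lxy K) =
            α • gx K + (⁅f, gx K⁆ - ⁅δ f, gy K⁆) := by
          rw [add_sub_assoc]
          rfl
        rw [e, hpol]
        refine add_mem ((U1 δ Hall).smul_mem α hxm) (sub_mem (sub_mem ?_ (hin f hf)) (hin _ hyy))
        exact hin _ (by rw [map_add, map_add, hf, hyy, add_zero])
      · intro hc
        let S : LieSubalgebra K (Lxy K) :=
          { carrier := {u | δ u = 0}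
            add_mem' := by
              intro a b ha hb
              show δ (a + b) = 0
              rw [map_add, show δ a = 0 from ha, show δ b = 0 from hb, add_zero]
            zero_mem' := map_zero δ
            smul_mem' := by
              intro t a ha
              show δ (t • a) = 0
              rw [map_smul, show δ a = 0 from ha, smul_zero]
            lie_mem' := by
              intro a b ha hb
              show δ ⁅a, b⁆ = 0
              rw [LieDerivation.apply_lie_eq_add, show δ a = 0 from ha, show δ b = 0 from hb,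
                lie_zero, zero_lie, add_zero] }
        have hle : U1 δ Hall ≤ S := by
          refine LieSubalgebra.lieSpan_le.mpr ?_
          rintro u ((hu | hu) | hu)
          · rw [Set.mem_singleton_iff] at hu
            rw [hu]
            exact hx
          · exact hu.1
          · exact hu.1
        exact hle hc
    · intro c
      constructor
      · intro hc
        exact hmain c hc
      · rintro ⟨α, f, hf, rfl⟩
        exact hform α f hf
    · intro c
      constructor
      · intro hc
        obtain ⟨α, f, hf, rfl⟩ := hmain c hc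
        have hin : ∀ h : Lxy K, δ (δ h) = 0 → ⁅h, δ h⁆ ∈ Submodule.span K
            ({gx K} ∪ {c | ∃ h : Lxy K, δ (δ h) = 0 ∧ c = ⁅h, δ h⁆}) :=
          fun h hh => Submodule.subset_span (Or.inr ⟨h, hh, rfl⟩)
        have e : (α • FreeLieAlgebra.of K 0 + ⁅f, FreeLieAlgebra.of K (0 : Fin 2)⁆ -
            ⁅δ f, FreeLieAlgebra.of K (1 : Fin 2)⁆ : Lxy K) =
            α • gx K + (⁅f, gx K⁆ - ⁅δ f, gy K⁆) := by
          rw [add_sub_assoc]
          rfl
        rw [e, hpol]
        refine add_mem (Submodule.smul_mem _ α (Submodule.subset_span (Or.inl rfl)))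
          (sub_mem (sub_mem ?_ (hin f hf)) (hin _ hyy))
        exact hin _ (by rw [map_add, map_add, hf, hyy, add_zero])
      · intro hc
        refine Submodule.span_induction (p := fun c _ => δ c = 0) ?_ (map_zero δ) ?_ ?_ hc
        · rintro u (hu | ⟨h, hh, rfl⟩)
          · rw [Set.mem_singleton_iff] at hu
            rw [hu]
            exact hx
          · exact hconst h hh
        · intro a b _ _ ha hb
          rw [map_add, ha, hb, add_zero]
        · intro t a _ ha
          rw [map_smul, ha, smul_zero]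

end Pool.Agent.Results.MP_d68c88_al.AllConstants
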